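import Mathlib
import Pool.Agent.helper35.Polar5

open MeasureTheory Filter Topology
open scoped ENNReal

namespace Pool.Agent.Results.MP_efb919_an.PolarizationLimit

/-- The `N`-th Riesz `s`-polarization constant of `K`: the supremum over all `N`-point
configurations `x` in `K` (points may coincide) of the infimum over `y ∈ K` of
`∑ j, |y - x j|^(-s)`, where a term with `y = x j` is `+∞`. -/
noncomputable def polarization (K : Set ℝ) (s : ℝ) (N : ℕ) : ℝ≥0∞ :=
  ⨆ (x : Fin N → ℝ) (_ : ∀ i, x i ∈ K), ⨅ y ∈ K, ∑ j, (ENNReal.ofReal |y - x j|) ^ (-s)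

/-- **Polarization asymptotics.** For every compact set `K ⊆ ℝ` of positive Lebesgue measure
(in particular for every fat Cantor set) and every `s > 1`, the normalised polarization constants
`pol_s(K; N) / N^s` converge to `2 (2^s - 1) ζ(s) λ(K)^(-s)`. -/
theorem result (K : Set ℝ) (hK : IsCompact K) (hpos : 0 < volume K) (s : ℝ) (hs : 1 < s) :
    Tendsto (fun N : ℕ => polarization K s N / (N : ℝ≥0∞) ^ s) atTop
      (𝓝 (ENNReal.ofReal
        (2 * (2 ^ s - 1) * (riemannZeta (s : ℂ)).re / (volume K).toReal ^ s))) := by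
  have h := Pool.Agent.helper35.Polar.tendsto_pol hK hpos hs
  rw [Pool.Agent.helper35.Polar.cst_eq hs] at h
  exact h

end Pool.Agent.Results.MP_efb919_an.PolarizationLimit
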